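import Pool.Agent.H50.RQ.Fn

/-!
# Local sign changes of the prime error term: all moduli, all cases but one (MP_1650a8_nt)

`E_δ(x, q, a) = ψ(x, q, a) - (1-δ) x/φ(q) - ψ(δ x, q, a)`. For every `q ≥ 1` and every reduced class `a`: either the number of
sign changes on `[T, eT]` is unbounded in the sense of the question, or the supremum `Θ` of the real parts of the
poles (other than `1`) of `H_a(s) = Σ_χ conj(χ(a)) L'/L(s, χ)` satisfies `1/2 < Θ < 1` and is attained, by only finitely many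
poles (or, if neither `a^4 = 1` nor `a^6 = 1`, by poles whose residues are not bounded away from `0`).
-/

set_option autoImplicit false

namespace Pool.Agent.Results.MP_1650a8_nt.AllModuli

/-- `F` has (at least) `k` sign changes on `[a, b]` -/
def SignChanges (F : ℝ → ℝ) (a b : ℝ) (k : ℕ) : Prop :=
  ∃ x : Fin (k + 1) → ℝ, StrictMono x ∧ (∀ i, a ≤ x i ∧ x i ≤ b) ∧
    ∀ i : Fin k, F (x i.castSucc) * F (x i.succ) < 0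

/-- `ψ(x, q, a)` -/
noncomputable def psi (q : ℕ) (a : (ZMod q)ˣ) (x : ℝ) : ℝ :=
  ∑ n ∈ Finset.Icc 1 ⌊x⌋₊, if (n : ZMod q) = (a : ZMod q) then ArithmeticFunction.vonMangoldt n else 0

/-- `E_δ(x, q, a) = ψ(x, q, a) - (1-δ) x/φ(q) - ψ(δ x, q, a)` -/
noncomputable def E (q : ℕ) (a : (ZMod q)ˣ) (δ x : ℝ) : ℝ :=
  psi q a x - (1 - δ) * x / (q.totient : ℝ) - psi q a (δ * x)

/-- for this class `a`, `limsup_T v(T, q, a, δ) → ∞` as `δ → 1-` -/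
def Unbounded (q : ℕ) (a : (ZMod q)ˣ) : Prop :=
  ∀ M : ℕ, ∃ δ₀ : ℝ, δ₀ < 1 ∧ ∀ δ : ℝ, 0 ≤ δ → δ₀ < δ → δ < 1 → ∀ T₀ : ℝ,
    ∃ T : ℝ, T₀ ≤ T ∧ SignChanges (E q a δ) T (Real.exp 1 * T) M

/-- `Σ_χ χ(a⁻¹) ord_ρ L(s, χ)`: the residue of `H_a(s) = Σ_χ conj(χ(a)) L'/L(s, χ)` at `ρ ≠ 1` (and `0` at `ρ = 1`) -/
noncomputable def res (q : ℕ) [NeZero q] (a : (ZMod q)ˣ) (ρ : ℂ) : ℂ :=
  ∑ χ : DirichletCharacter ℂ q, χ (((a⁻¹ : (ZMod q)ˣ)) : ZMod q) *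
    (analyticOrderNatAt (DirichletCharacter.LFunction χ) ρ : ℂ)

/-- the case left open -/
def Exceptional (q : ℕ) [NeZero q] (a : (ZMod q)ˣ) : Prop :=
  ∃ Θ : ℝ, 1 / 2 < Θ ∧ Θ < 1 ∧ (∀ ρ : ℂ, Θ < ρ.re → res q a ρ = 0) ∧
    {ρ : ℂ | ρ.re = Θ ∧ res q a ρ ≠ 0}.Nonempty ∧
    ({ρ : ℂ | ρ.re = Θ ∧ res q a ρ ≠ 0}.Finite ∨
      (¬ (a ^ 4 = 1 ∨ a ^ 6 = 1) ∧ ∀ ε : ℝ, 0 < ε → ∃ ρ : ℂ, ρ.re = Θ ∧ res q a ρ ≠ 0 ∧ ‖res q a ρ‖ < ε))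

theorem result (q : ℕ) [NeZero q] (a : (ZMod q)ˣ) : Unbounded q a ∨ Exceptional q a := by
  by_cases h : Exceptional q a
  · exact Or.inr h
  · exact Or.inl fun M => Pool.Agent.H50.RQ.fin_allQ q a h M

end Pool.Agent.Results.MP_1650a8_nt.AllModuli
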